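import Pool.Agent.W868.KP.Fn

/-!
# Distinct countably closed inner models, mutually embeddable with the same action on the ordinals

The formulas of set theory (`Fml`), their truth (`Sat`, `Fml.Over`) and the transitive models of
ZFC (`IsZFC`) are defined in `Pool.Agent.W868.Defs`.
-/

set_option autoImplicit false

namespace Pool.Agent.Results.MP_0bf392_lc.EqualOrdinalActions

open Pool.Agent.W868
open ZFSet (pair)

/-- There is a measurable cardinal: an uncountable set `K` with a nonprincipal ultrafilter that is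
closed under the intersections of fewer than `|K|` of its elements. -/
def ExistsMeasurable : Prop :=
  ∃ (K : Type) (U : Ultrafilter K), Cardinal.aleph0 < Cardinal.mk K ∧ (∀ a : K, {a} ∉ U) ∧
    ∀ S : Set (Set K), Cardinal.mk S < Cardinal.mk K → (∀ s ∈ S, s ∈ U) → ⋂₀ S ∈ U

/-- `M` is a class of the model `W`: it consists of the elements of `W` with a property that is
expressed in `(W, ∈)` by a formula with parameters from `W`. -/
def IsClass (W M : Set ZFSet.{0}) : Prop :=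
  M ⊆ W ∧ ∃ φ : Fml ZFSet.{0} 1, φ.Over W ∧ ∀ x ∈ W, (Sat W id φ ![x] ↔ x ∈ M)

/-- `M` is an inner model of `W`: a transitive class of `W` that contains every ordinal of `W`
and satisfies ZFC. -/
def IsInner (W M : Set ZFSet.{0}) : Prop :=
  IsClass W M ∧ IsZFC M ∧ ∀ α ∈ W, α.IsOrdinal → α ∈ M

/-- `f` is a function from `ω` to `M`. -/
def IsSeq (M : Set ZFSet.{0}) (f : ZFSet.{0}) : Prop :=
  (∀ p ∈ f, ∃ n ∈ ZFSet.omega, ∃ y ∈ M, p = pair n y) ∧
    ∀ n ∈ ZFSet.omega, ∃! y, pair n y ∈ f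

/-- In `W`, the class `M` is countably closed: every function from `ω` to `M` is an element
of `M`. -/
def CountablyClosed (W M : Set ZFSet.{0}) : Prop := ∀ f ∈ W, IsSeq M f → f ∈ M

/-- In `W`, `i` is an embedding of the class `M` into the class `N`: the graph of `i` on `M` is
given in `(W, ∈)` by a formula with parameters from `W`, and `i` is an elementary embedding of
`(M, ∈)` into `(N, ∈)`. -/
def IsEmbedding (W M N : Set ZFSet.{0}) (i : ZFSet.{0} → ZFSet.{0}) : Prop :=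
  (∃ φ : Fml ZFSet.{0} 2, φ.Over W ∧
    ∀ x ∈ W, ∀ y ∈ W, (Sat W id φ ![x, y] ↔ x ∈ M ∧ y = i x)) ∧
  (∀ x ∈ M, i x ∈ N) ∧
  ∀ (n : ℕ) (φ : Fml ZFSet.{0} n), φ.Over ∅ → ∀ v : Fin n → ZFSet.{0}, (∀ l, v l ∈ M) →
    (Sat M id φ v ↔ Sat N id φ fun l => i (v l))

/-- If there is a measurable cardinal, then there is a countable transitive model `W` of ZFC in
which there are two distinct countably closed inner models `M` and `N` together with embeddings
`i : M → N` and `j : N → M` such that `i` and `j` agree on the ordinals. -/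
theorem result (h : ExistsMeasurable) : ∃ W : Set ZFSet.{0}, W.Countable ∧ IsZFC W ∧
    ∃ (M N : Set ZFSet.{0}) (i j : ZFSet.{0} → ZFSet.{0}),
      IsInner W M ∧ IsInner W N ∧ M ≠ N ∧ CountablyClosed W M ∧ CountablyClosed W N ∧
      IsEmbedding W M N i ∧ IsEmbedding W N M j ∧ ∀ α ∈ W, α.IsOrdinal → i α = j α := by
  obtain ⟨K, U, h0, h1, h2⟩ := h
  obtain ⟨L, _, _, _, U', hU⟩ := KP.exists_normal U h0 h1 h2
  obtain ⟨W, V, k, u, hc, h3, hT⟩ := KP.main_normal hU
  have hv1 : ∀ x ∈ W, ∀ l, (![x] : Fin 1 → ZFSet.{0}) l ∈ W := by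
    intro x hx l
    fin_cases l
    exact hx
  have hv2 : ∀ x ∈ W, ∀ y ∈ W, ∀ l, (![x, y] : Fin 2 → ZFSet.{0}) l ∈ W := by
    intro x hx y hy l
    fin_cases l
    exacts [hx, hy]
  have hcl : ∀ i, IsClass W (KP.MM W k u i) := by
    intro i
    obtain ⟨φ, hφ, h4⟩ := KP.dfn_MM h3 i
    exact ⟨KP.MM_subset h3 i, φ, hφ, fun x hx => h4 ![x] (hv1 x hx)⟩
  have hin : ∀ i, IsInner W (KP.MM W k u i) := fun i =>
    ⟨hcl i, KP.isZFC_MM h3 hT i, fun α hα ho => KP.ord_MM h3 hα ho⟩
  have hemb : ∀ i, IsEmbedding W (KP.MM W k u (!i)) (KP.MM W k u i) (KP.em W k u i) := by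
    intro i
    have h4 : Dfn W W fun w : Fin 2 → ZFSet.{0} => w 0 ∈ KP.MM W k u (!i) ∧
        w 1 = KP.em W k u i (w 0) :=
      (h3.MMd (!i) (DfnF.proj 0)).and (Dfn.eq (DfnF.proj 1) (h3.emD i (DfnF.proj 0)))
    obtain ⟨φ, hφ, h5⟩ := h4
    exact ⟨⟨φ, hφ, fun x hx y hy => h5 ![x, y] (hv2 x hx y hy)⟩,
      fun x hx => KP.em_MM h3 i hx, fun n φ hφ v hv => KP.elem_em h3 i φ hφ v hv⟩
  exact ⟨W, hc, h3.zfc, KP.MM W k u false, KP.MM W k u true, KP.em W k u true,
    KP.em W k u false, hin false, hin true, KP.MM_ne h3 hT,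
    fun f hf hs => KP.seq_MM h3 hf hs, fun f hf hs => KP.seq_MM h3 hf hs,
    hemb true, hemb false, fun α hα ho => (KP.em_ord h3 hT hα ho).symm⟩

end Pool.Agent.Results.MP_0bf392_lc.EqualOrdinalActions
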